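import Pool.Agent.FL.Par

/-!
# MP_f09395_gt, abstract end of the proof for space (2): theorem EC2
-/

set_option linter.unusedSectionVars false

noncomputable section

namespace Pool.Agent.helper53.FL

open scoped ContDiff
open Pool.Agent.Helper93.Fin Pool.Agent.helper79.FP Pool.Agent.helper79.FR Pool.Agent.FL
open Filter Topology

variable {𝔸 : Type*} [NormedRing 𝔸] [NormedAlgebra ℝ 𝔸] [FiniteDimensional ℝ 𝔸]
variable {g h m : Submodule ℝ 𝔸} {Q : 𝔸 →ₗ[ℝ] 𝔸 →ₗ[ℝ] ℝ} {P : 𝔸 →L[ℝ] m} {φ ψ v z : m → ℝ}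
variable {h0 : 𝔸} {B : m → 𝔸} {c : m → ℝ} {H : Subgroup 𝔸ˣ}

/-- the function `-sinh (k t)` -/
def Sk (k t : ℝ) : ℝ := -Real.sinh (k * t)

theorem Sk_contDiff (k : ℝ) : ContDiff ℝ ∞ (Sk k) :=
  (Real.contDiff_sinh.comp (contDiff_const.mul contDiff_id)).neg

theorem Sk_deriv (k t : ℝ) : deriv (Sk k) t = -(k * Real.cosh (k * t)) := by
  have h1 : HasDerivAt (fun t : ℝ => k * t) k t := by
    simpa using (hasDerivAt_id t).const_mul k
  have h2 := ((Real.hasDerivAt_sinh (k * t)).comp t h1).neg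
  have h3 : HasDerivAt (Sk k) (-(Real.cosh (k * t) * k)) t := h2
  rw [h3.deriv]; ring

theorem Sk_abs (k t : ℝ) : |Sk k t| ≤ Real.cosh (k * t) := by
  unfold Sk
  rw [abs_neg]
  refine abs_le.2 ⟨?_, (Real.sinh_lt_cosh _).le⟩
  have h1 := Real.sinh_lt_cosh (-(k * t))
  rw [Real.sinh_neg, Real.cosh_neg] at h1
  linarith

theorem D1_cmul' {k : m → ℝ} (r : ℝ) (hk : ContDiffOn ℝ ∞ k {0}ᶜ) {u : m} (hu : u ≠ 0) (a : m) :
    D1 (fun z => r * k z) u a = r * D1 k u a := fd_cmul r hk hu a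

theorem D2_cmul' {k : m → ℝ} (r : ℝ) (hk : ContDiffOn ℝ ∞ k {0}ᶜ) {u : m} (hu : u ≠ 0)
    (a b : m) : D2 (fun z => r * k z) u a b = r * D2 k u a b := by
  have h1 : (fun z => D1 (fun z => r * k z) z a) =ᶠ[𝓝 u] fun w => r * D1 k w a :=
    (eventually_ne' hu).mono fun w hw => D1_cmul' r hk hw a
  rw [D2, h1.fderiv_eq, fd_cmul r (D1_smooth hk a) hu]
  rfl

/-- **THEOREM EC2** -/
theorem EC2 (hN : NData g h m Q P) (hC : Cas g h m Q P h0 B c) (hG : GrpD H h m Q h0 B c)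
    (hv : PhiN h m P v) (hvH : InvH H v) (hφ : PhiN h m P φ) (hφH : InvH H φ) {M : ℝ}
    (h1 : ∀ u b : m, Flag Q u b → (al P h0 φ u b = 0 ↔ al P h0 v u b = 0))
    (h1' : ∀ u b : m, Flag Q u b → |al' P h0 φ u b| ≤ M * |al P h0 φ u b|)
    (h2 : ∀ u b : m, Flag Q u b → Q (B u) b = 0 → al P h0 φ u b = 0 → 0 < T3F Q P φ u b)
    (h3 : ∀ u b : m, Flag Q u b → Q (B u) b ≠ 0 → al P h0 φ u b = 0 →
      0 < T3F Q P φ u b ∨ ∃ j, 1 ≤ j ∧ aW P h0 B v j u ≠ 0) :
    ∃ ψ : m → ℝ, PhiN h m P ψ ∧ InvH H ψ ∧ T3Pos h Q P ψ := by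
  have hS : ∀ p ∈ (FlagSet Q : Set (m × m)), p.1 ≠ 0 := fun p hp => flag_ne hN hp
  have hFc : IsCompact (FlagSet Q : Set (m × m)) := flagSet_compact hN
  -- (i) the compact set `{al = 0, T3 ≤ 0}`
  obtain ⟨K0, hK0d⟩ : ∃ K0 : Set (m × m), K0 = (FlagSet Q : Set (m × m)) ∩
      (fun p : m × m => al P h0 φ p.1 p.2) ⁻¹' {0} := ⟨_, rfl⟩
  have hK0 : IsCompact K0 := by
    rw [hK0d]
    exact compact_sub hN (al_cont (P := P) (h0 := h0) hφ.smooth hS) isClosed_singleton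
  have hS0 : ∀ p ∈ K0, p.1 ≠ 0 := fun p hp => hS p (by rw [hK0d] at hp; exact hp.1)
  obtain ⟨K1, hK1d⟩ : ∃ K1 : Set (m × m), K1 = K0 ∩
      (fun p : m × m => T3F Q P φ p.1 p.2) ⁻¹' (Set.Iic 0) := ⟨_, rfl⟩
  have hK1 : IsCompact K1 := by
    rw [hK1d]
    exact hK0.of_isClosed_subset ((T3F_cont hN hφ.smooth hS0).preimage_isClosed_of_isClosed
      hK0.isClosed isClosed_Iic) Set.inter_subset_left
  have hS1 : ∀ p ∈ K1, p.1 ≠ 0 := fun p hp => hS0 p (by rw [hK1d] at hp; exact hp.1)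
  have hm0 : ∀ u b : m, (u, b) ∈ K0 ↔ Flag Q u b ∧ al P h0 φ u b = 0 := by
    intro u b; rw [hK0d]; exact Iff.rfl
  have hm1 : ∀ u b : m, (u, b) ∈ K1 ↔ (u, b) ∈ K0 ∧ T3F Q P φ u b ≤ 0 := by
    intro u b; rw [hK1d]; exact Iff.rfl
  obtain ⟨J, k', hJk⟩ := hb_exists hK1 (a := fun j p => aW P h0 B v j p.1)
    (fun j => cont_fst (aW_smooth hC hv.smooth j) hS1) (by
      rintro ⟨u, b⟩ hp
      obtain ⟨hp0, hp1⟩ := (hm1 u b).1 hp
      obtain ⟨hF, ha⟩ := (hm0 u b).1 hp0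
      have hw : Q (B u) b ≠ 0 := fun h => absurd (h2 u b hF h ha) (not_lt.2 hp1)
      rcases h3 u b hF hw ha with h4 | h4
      · exact absurd h4 (not_lt.2 hp1)
      · exact h4)
  obtain ⟨z, hz⟩ : ∃ z : m → ℝ, z = hb Q P h0 B v J k' := ⟨_, rfl⟩
  have hzs : ContDiffOn ℝ ∞ z {0}ᶜ := by rw [hz]; exact hb_smooth hN hC hv.smooth J k'
  have hzh : ∀ (r : ℝ) (u : m), z (r • u) = r ^ 2 * z u := by
    rw [hz]; exact hb_hom hC hv.smooth hv.hom J k'
  have hzH : InvH H z := by rw [hz]; exact hb_inv hN hC hG hv.smooth hvH J k'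
  have hz1 : ∀ u b : m, (u, b) ∈ K1 → 0 < Q (B u) b * al P h0 z u b := by
    intro u b hp
    obtain ⟨hp0, hp1⟩ := (hm1 u b).1 hp
    obtain ⟨hF, ha⟩ := (hm0 u b).1 hp0
    have hu := hF.ne hN
    have e1 := flag_D1W hN hC hF v
    rw [(h1 u b hF).1 ha, mul_zero] at e1
    have e2 := hJk (u, b) hp e1
    have e3 := flag_D1W hN hC hF z
    rw [hz, hb_W hN hC hv.smooth J k' hu, BN_apply, hF.1, inv_one, mul_one, ← hz] at e3
    rw [← e3]; exact e2
  -- (ii) a positive lower bound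
  have hfc : ContinuousOn (fun p : m × m => max (T3F Q P φ p.1 p.2)
      (Q (B p.1) p.2 * al P h0 z p.1 p.2)) K0 :=
    (T3F_cont hN hφ.smooth hS0).sup ((w_cont hC hS0).mul (al_cont hzs hS0))
  obtain ⟨C, hC0, c0, hc0, hc⟩ := pos_add_sq' hK0 (f := fun p : m × m =>
      max (T3F Q P φ p.1 p.2) (Q (B p.1) p.2 * al P h0 z p.1 p.2)) (g := fun _ => 0) hfc
    continuousOn_const (by
      rintro ⟨u, b⟩ hp -
      by_cases hT : 0 < T3F Q P φ u b
      · exact lt_max_of_lt_left hT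
      · exact lt_max_of_lt_right (hz1 u b ((hm1 u b).2 ⟨hp, not_lt.1 hT⟩)))
  obtain ⟨e, he⟩ : ∃ e : ℝ, e = c0 / 2 := ⟨_, rfl⟩
  have he0 : 0 < e := by rw [he]; linarith
  have hlow : ∀ u b : m, (u, b) ∈ K0 → 0 < T3F Q P φ u b ∨
      0 < Q (B u) b * al P h0 z u b - e := by
    intro u b hp
    have e1 := hc (u, b) hp
    simp only at e1
    rw [zero_pow two_ne_zero, mul_zero, add_zero] at e1
    rcases le_max_iff.1 e1 with e2 | e2
    · left; linarith
    · right; rw [he]; linarith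
  -- (iii) the constant `k`
  obtain ⟨C0, hC0b⟩ := hFc.exists_bound_of_continuousOn (f := fun p : m × m =>
      |M| * |al P h0 z p.1 p.2| + |al' P h0 z p.1 p.2|)
    ((continuousOn_const.mul (al_cont hzs hS).abs).add (al'_cont hzs hS).abs)
  obtain ⟨k, hk⟩ : ∃ k : ℝ, k = (|C0| + 1) / (4 * e) := ⟨_, rfl⟩
  have hk0 : 0 < k := by rw [hk]; positivity
  have hk1 : 4 * k * e = |C0| + 1 := by rw [hk]; field_simp
  -- (iv) the family
  obtain ⟨y, hy⟩ : ∃ y : m → ℝ, y = fun u => Sk k (c u) * z u := ⟨_, rfl⟩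
  have hys : ContDiffOn ℝ ∞ y {0}ᶜ := by
    rw [hy]; exact ((Sk_contDiff k).comp_contDiffOn hC.csm).mul hzs
  have hyh : ∀ (r : ℝ) (u : m), y (r • u) = r ^ 2 * y u := by
    intro r u
    rw [hy]
    simp only
    by_cases hr : r = 0
    · rw [hzh, hr]; ring
    · rw [hzh, hC.chom r u hr]; ring
  have hyH : InvH H y := by
    intro l hl u u' huu
    rw [hy]
    simp only
    rw [hzH l hl u u' huu, hG.c l hl u u' huu]
  obtain ⟨F, hF⟩ : ∃ F : ℝ × m → ℝ, F = fun p => φ p.2 + p.1 * y p.2 := ⟨_, rfl⟩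
  have hFs : ContDiffOn ℝ ∞ F (parU ℝ m) := by
    have t1 : ∀ {f : m → ℝ}, ContDiffOn ℝ ∞ f {0}ᶜ →
        ContDiffOn ℝ ∞ (fun z : ℝ × m => f z.2) (parU ℝ m) := fun hf =>
      hf.comp contDiff_snd.contDiffOn fun _ hz => hz.2
    rw [hF]
    exact (t1 hφ.smooth).add (contDiff_fst.contDiffOn.mul (t1 hys))
  have hopen := par_open (κ := Bool) hFc (p₀ := (0 : ℝ))
    (A := fun q : ℝ × (m × m) => al P h0 (fun w => F (q.1, w)) q.2.1 q.2.2)
    (T := fun i q => if i then T3F Q P (fun w => F (q.1, w)) q.2.1 q.2.2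
      else Q (B q.2.1) q.2.2 * al P h0 z q.2.1 q.2.2 - e) (par_al_cont hFs hS)
    (fun i => by
      cases i
      · simp only [Bool.false_eq_true, if_false]
        have t1 : ContinuousOn (fun p : m × m => Q (B p.1) p.2 * al P h0 z p.1 p.2 - e)
            (FlagSet Q : Set (m × m)) :=
          ((w_cont hC hS).mul (al_cont hzs hS)).sub continuousOn_const
        exact t1.comp continuous_snd.continuousOn fun q hq => hq.2
      · simpa using par_T3F_cont hN hFs hS)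
    (by
      rintro ⟨u, b⟩ hq ha
      have t1 : (fun w => F ((0 : ℝ), w)) = φ := by
        rw [hF]; funext w; simp
      simp only [t1] at ha ⊢
      rcases hlow u b ((hm0 u b).2 ⟨hq, ha⟩) with t2 | t2
      · exact ⟨true, by simpa using t2⟩
      · exact ⟨false, by simpa using t2⟩)
  obtain ⟨ε, hε0, hε⟩ : ∃ ε : ℝ, 0 < ε ∧ ∀ x ∈ (FlagSet Q : Set (m × m)),
      al P h0 (fun w => F (ε, w)) x.1 x.2 = 0 → ∃ i : Bool,
        0 < (if i then T3F Q P (fun w => F (ε, w)) x.1 x.2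
          else Q (B x.1) x.2 * al P h0 z x.1 x.2 - e) := by
    obtain ⟨δ, hδ, hδ'⟩ := Metric.eventually_nhds_iff.1 hopen
    refine ⟨δ / 2, by positivity, hδ' ?_⟩
    rw [Real.dist_eq, sub_zero, abs_of_pos (by positivity)]
    linarith
  obtain ⟨ψ, hψ⟩ : ∃ ψ : m → ℝ, ψ = fun w => φ w + ε * y w := ⟨_, rfl⟩
  have hψF : (fun w => F (ε, w)) = ψ := by rw [hF, hψ]
  rw [hψF] at hε
  have hψs : ContDiffOn ℝ ∞ ψ {0}ᶜ := by
    rw [hψ]; exact hφ.smooth.add (contDiffOn_const.mul hys)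
  have hψH : InvH H ψ := by
    intro l hl u u' huu
    rw [hψ]
    simp only
    rw [hφH l hl u u' huu, hyH l hl u u' huu]
  have hψP : PhiN h m P ψ := by
    refine ⟨hψs, fun r u => ?_, inv_of_InvH hN hG hψs hψH⟩
    rw [hψ]
    simp only
    rw [hφ.hom, hyh]; ring
  have hal : ∀ u b : m, Flag Q u b → al P h0 ψ u b = al P h0 φ u b +
      ε * (Sk k (c u) * al P h0 z u b) := by
    intro u b hFl
    have hu := hFl.ne hN
    have t1 := cas_al hN hC (Sk_contDiff k) hzs hFl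
    rw [← hy] at t1
    rw [← t1, hψ]
    unfold al
    rw [D1_sum hφ.smooth (contDiffOn_const.mul hys) hu, D1_cmul' ε hys hu]
  have hal' : ∀ u b : m, Flag Q u b → al' P h0 ψ u b = al' P h0 φ u b +
      ε * (Sk k (c u) * al' P h0 z u b + 4 * k * Real.cosh (k * c u) *
        (Q (B u) b * al P h0 z u b)) := by
    intro u b hFl
    have hu := hFl.ne hN
    have t1 := cas_al' hN hC (Sk_contDiff k) hzs hFl
    rw [← hy, Sk_deriv] at t1
    have t2 : al' P h0 y u b = Sk k (c u) * al' P h0 z u b + 4 * k * Real.cosh (k * c u) *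
        (Q (B u) b * al P h0 z u b) := by rw [t1]; ring
    rw [← t2, hψ]
    unfold al'
    rw [D2_sum hφ.smooth (contDiffOn_const.mul hys) hu, D2_cmul' ε hys hu]
  obtain ⟨κ, hκ⟩ := stepA hN hC hψP (by
    intro u b hFl ha
    obtain ⟨i, hi⟩ := hε (u, b) hFl ha
    cases i
    · right
      simp only [Bool.false_eq_true, if_false] at hi
      have e1 : e < Q (B u) b * al P h0 z u b := by linarith
      have hw : Q (B u) b ≠ 0 := by
        intro h; rw [h, zero_mul] at e1; linarith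
      refine mul_ne_zero hw (ne_of_gt ?_)
      have e2 := hal u b hFl
      rw [ha] at e2
      have e3 : |al P h0 φ u b| = ε * (|Sk k (c u)| * |al P h0 z u b|) := by
        have : al P h0 φ u b = -(ε * (Sk k (c u) * al P h0 z u b)) := by linarith
        rw [this, abs_neg, abs_mul, abs_mul, abs_of_pos hε0]
      have e4 := h1' u b hFl
      have e5 : |al' P h0 φ u b| ≤ |M| * |al P h0 φ u b| :=
        e4.trans (mul_le_mul_of_nonneg_right (le_abs_self M) (abs_nonneg _))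
      rw [e3] at e5
      have e6 := hC0b (u, b) hFl
      simp only at e6
      have e7 : |M| * |al P h0 z u b| + |al' P h0 z u b| ≤ |C0| :=
        ((le_abs_self _).trans e6).trans (le_abs_self _)
      have e8 := Sk_abs k (c u)
      have e9 : 0 < Real.cosh (k * c u) := Real.cosh_pos _
      rw [hal' u b hFl]
      have f1 : -|al' P h0 φ u b| ≤ al' P h0 φ u b := neg_abs_le _
      have f2 : -(|Sk k (c u)| * |al' P h0 z u b|) ≤ Sk k (c u) * al' P h0 z u b := by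
        rw [← abs_mul]; exact neg_abs_le _
      have f3 : |Sk k (c u)| * (|M| * |al P h0 z u b| + |al' P h0 z u b|) ≤
          Real.cosh (k * c u) * |C0| :=
        mul_le_mul e8 e7 (by positivity) e9.le
      have f4 : 4 * k * Real.cosh (k * c u) * e ≤ 4 * k * Real.cosh (k * c u) *
          (Q (B u) b * al P h0 z u b) :=
        mul_le_mul_of_nonneg_left e1.le (by positivity)
      have f5 : 4 * k * Real.cosh (k * c u) * e = Real.cosh (k * c u) * (|C0| + 1) := by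
        rw [← hk1]; ring
      have f6 : 0 < ε * Real.cosh (k * c u) := by positivity
      have f7 : ε * (Sk k (c u) * al' P h0 z u b + 4 * k * Real.cosh (k * c u) *
          (Q (B u) b * al P h0 z u b)) ≥ ε * (-(|Sk k (c u)| * |al' P h0 z u b|) +
          Real.cosh (k * c u) * (|C0| + 1)) := by
        refine mul_le_mul_of_nonneg_left ?_ hε0.le
        linarith
      have f8 : ε * (|Sk k (c u)| * (|M| * |al P h0 z u b| + |al' P h0 z u b|)) ≤
          ε * (Real.cosh (k * c u) * |C0|) := mul_le_mul_of_nonneg_left f3 hε0.le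
      nlinarith
    · left
      simpa using hi)
  obtain ⟨h4, h5⟩ := sq_PhiN hN hC hG hψP hψH κ
  exact ⟨_, h4, h5, hκ⟩

end Pool.Agent.helper53.FL
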